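import Pool.Agent.Helper6.LPA.St

/-!
# Project LPA, module CHR: choice of the parameters
-/

set_option autoImplicit false

namespace Pool.Agent.Helper88.LPA

open Finset Filter
open Pool.Agent.Helper6.LP Pool.Agent.Helper6.LPA
open Pool.Agent.Helper98.LM (QQ)

private lemma ev_log (c d s : ℝ) (hc : 0 < c) (hs : 0 < s) (n : ℕ) :
    ∀ᶠ x : ℝ in atTop, d * Real.log x ^ n ≤ c * x ^ s := by
  have h := isLittleO_log_rpow_rpow_atTop (n : ℝ) hs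
  have hd : 0 < c / (|d| + 1) := by positivity
  have h1 := h.bound hd
  filter_upwards [h1, eventually_ge_atTop (1 : ℝ)] with x hx hx1
  have hl : 0 ≤ Real.log x := Real.log_nonneg hx1
  rw [Real.rpow_natCast, Real.norm_of_nonneg (pow_nonneg hl n),
    Real.norm_of_nonneg (by positivity)] at hx
  have h2 : d * Real.log x ^ n ≤ (|d| + 1) * Real.log x ^ n :=
    mul_le_mul_of_nonneg_right (by linarith [le_abs_self d]) (pow_nonneg hl n)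
  refine h2.trans ?_
  have h3 := mul_le_mul_of_nonneg_left hx (by positivity : (0 : ℝ) ≤ |d| + 1)
  refine h3.trans (le_of_eq ?_)
  field_simp

private lemma exz (B w : ℕ) (hB : 1 ≤ B) :
    ∃ z : ℕ, z ^ B ≤ w ∧ w < (z + 1) ^ B ∧ ∀ D : ℕ, D ^ B ≤ w → D ≤ z := by
  classical
  have hex : ∃ t : ℕ, w < (t + 1) ^ B :=
    ⟨w, lt_of_lt_of_le (Nat.lt_succ_self w) (Nat.le_self_pow (by omega) _)⟩
  refine ⟨Nat.find hex, ?_, Nat.find_spec hex, fun D hD => ?_⟩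
  · rcases Nat.eq_zero_or_pos (Nat.find hex) with h0 | h0
    · rw [h0, zero_pow (by omega)]
      exact Nat.zero_le _
    · obtain ⟨k, hk⟩ : ∃ k, Nat.find hex = k + 1 := ⟨Nat.find hex - 1, by omega⟩
      have h1 := Nat.find_min hex (m := k) (by omega)
      rw [hk]
      exact not_lt.1 h1
  · by_contra hcon
    have h1 : Nat.find hex + 1 ≤ D := by omega
    have h2 : (Nat.find hex + 1) ^ B ≤ D ^ B := Nat.pow_le_pow_left h1 B
    have h3 := Nat.find_spec hex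
    omega

private lemma exG (p P : ℕ) (C D : ℝ) (hC : 0 < C) (hD : 0 ≤ D) :
    ∃ G : ℝ, 1 ≤ G ∧ (p : ℝ) ≤ G - 1 ∧ D ≤ G - 1 ∧ ∀ (J : ℕ) (L : ℝ), 1 ≤ L →
      (J : ℝ) ≤ C * L ^ 2 + 1 → 400 * ((P : ℝ) * ((J : ℝ) + 1)) ^ 13 ≤ (G - 1) * L ^ 26 := by
  have hPR : (0 : ℝ) ≤ P := Nat.cast_nonneg _
  have hpR : (0 : ℝ) ≤ p := Nat.cast_nonneg _
  obtain ⟨E, hE⟩ : ∃ E : ℝ, E = 400 * ((P : ℝ) * (C + 2)) ^ 13 := ⟨_, rfl⟩
  have hE0 : 0 ≤ E := by rw [hE]; positivity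
  refine ⟨p + D + E + 1, by clear hE; linarith, by clear hE; linarith, by clear hE; linarith,
    fun J L hL hJ => ?_⟩
  have hL2 : 1 ≤ L ^ 2 := one_le_pow₀ hL
  have h1 : (J : ℝ) + 1 ≤ (C + 2) * L ^ 2 := by clear hE; linarith
  have h2 : (P : ℝ) * ((J : ℝ) + 1) ≤ P * (C + 2) * L ^ 2 := by
    rw [mul_assoc]
    exact mul_le_mul_of_nonneg_left h1 hPR
  have h3 : ((P : ℝ) * ((J : ℝ) + 1)) ^ 13 ≤ (P * (C + 2) * L ^ 2) ^ 13 :=
    pow_le_pow_left₀ (by positivity) h2 13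
  have h4 : ((P : ℝ) * (C + 2) * L ^ 2) ^ 13 = ((P : ℝ) * (C + 2)) ^ 13 * L ^ 26 := by
    rw [mul_pow, ← pow_mul]
  calc 400 * ((P : ℝ) * ((J : ℝ) + 1)) ^ 13 ≤ 400 * (P * (C + 2) * L ^ 2) ^ 13 :=
        mul_le_mul_of_nonneg_left h3 (by norm_num)
    _ = E * L ^ 26 := by rw [h4, hE, mul_assoc]
    _ ≤ (p + D + E + 1 - 1) * L ^ 26 :=
        mul_le_mul_of_nonneg_right (by clear hE h1 h2 h3 h4; linarith) (by positivity)

theorem hCHR (h : StCHU) (hW : StWTS) (hS : StSVQ) (hT : StTGO) (hV : StVLP) : StCHR := by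
  obtain ⟨C', hC', H⟩ := h
  obtain ⟨B₁, hB₁, HW⟩ := hW
  obtain ⟨A, hA, HT⟩ := hT
  obtain ⟨c, hc, HV⟩ := hV
  have hB₁R : (1 : ℝ) ≤ B₁ := by exact_mod_cast hB₁
  obtain ⟨δ, hδ⟩ : ∃ δ : ℝ, δ = 1 / (8 * (B₁ : ℝ) + 2) := ⟨_, rfl⟩
  have hδ0 : 0 < δ := by rw [hδ]; positivity
  have hδ1 : δ ≤ 1 := by
    rw [hδ, div_le_one (by positivity)]
    linarith
  have hδB : δ * ((4 * B₁ + 1 : ℕ) : ℝ) ≤ 1 / 2 := by
    rw [hδ, div_mul_eq_mul_div, div_le_iff₀ (by positivity)]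
    push_cast
    linarith
  refine ⟨A, δ, hA, hδ0, hδ1, fun ε hε => ?_⟩
  have hC'0 : 0 < C' := by linarith
  obtain ⟨η, hηd⟩ : ∃ η : ℝ, η = min 1 (ε / (4 * C')) := ⟨_, rfl⟩
  have hη0 : 0 < η := by rw [hηd]; exact lt_min (by norm_num) (by positivity)
  have hη1 : η ≤ 1 := by rw [hηd]; exact min_le_left _ _
  have hηε : C' * η ≤ ε / 4 := by
    have h1 : η ≤ ε / (4 * C') := by rw [hηd]; exact min_le_right _ _
    have h2 := mul_le_mul_of_nonneg_left h1 hC'0.le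
    refine h2.trans (le_of_eq ?_)
    field_simp
  obtain ⟨B, hB, HS⟩ := hS η 12 hη0
  obtain ⟨p₁', hp₁', H⟩ := H η B B₁ hη0 hη1 hB HS
  have hB0 : (0 : ℝ) < B := by exact_mod_cast hB
  obtain ⟨K, hK⟩ : ∃ K : ℝ, K = Real.exp A / c := ⟨_, rfl⟩
  have hK0 : 0 < K := by rw [hK]; have := Real.exp_pos A; positivity
  obtain ⟨C, hCd⟩ : ∃ C : ℝ, C = 4 * C' * (B : ℝ) ^ 15 * K / ε := ⟨_, rfl⟩
  have hC0 : 0 < C := by rw [hCd]; positivity
  refine ⟨C, hC0, max 32 p₁', le_max_left _ _, fun p P hp hP hl => ?_⟩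
  have hp32 : 32 ≤ p := (le_max_left _ _).trans hp
  obtain ⟨J₀, H⟩ := H p P ((le_max_right _ _).trans hp) hP hl
  obtain ⟨I₀, HT⟩ := HT p P hp32 hP hl (C / 4) (by positivity)
  obtain ⟨G, hG1, hGp, hGB, hGJ⟩ := exG p P C ((B : ℝ) ^ 12 / η) hC0 (by positivity)
  have hG0 : 0 < G := by linarith
  have ev1 := ev_log ε (48 * K ^ 2) (1 / 2) hε (by norm_num) 4
  have ev2 := (tendsto_rpow_atTop hδ0).eventually_ge_atTop ((2 : ℝ) ^ (max I₀ 2 + 1))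
  have ev3 := Real.tendsto_log_atTop.eventually_ge_atTop
    (1 + 1 / K + ((J₀ : ℝ) + 1) / C + 2 / δ + (C + 1) / (δ / 2) ^ 3)
  have ev4 := ev_log (1 / 4) (G ^ B) δ (by norm_num) hδ0 (26 * B)
  obtain ⟨x₀, hx₀⟩ := eventually_atTop.1
    ((ev1.and (ev2.and (ev3.and ev4))).and (eventually_ge_atTop (1 : ℝ)))
  refine ⟨⌈x₀⌉₊, fun M I J a r hM hI1 hI2 hJ1 hJ2 hr1 hr2 => ?_⟩
  obtain ⟨⟨e1, e2, e3, e4⟩, hM1⟩ := hx₀ (M : ℝ) (Nat.ceil_le.1 hM)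
  obtain ⟨L, hLd⟩ : ∃ L : ℝ, L = Real.log M := ⟨_, rfl⟩
  rw [← hLd] at e1 e3 e4 hJ1 hJ2
  have hM0 : (0 : ℝ) < M := by linarith
  have t1 : 0 < 1 / K := by positivity
  have t2 : 0 ≤ ((J₀ : ℝ) + 1) / C := by positivity
  have t3 : 0 < 2 / δ := by positivity
  have t4 : 0 < (C + 1) / (δ / 2) ^ 3 := by positivity
  have hL1 : 1 ≤ L := by linarith
  have hL0 : 0 < L := by linarith
  have hLK : 1 ≤ K * L := by
    have : 1 / K ≤ L := by linarith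
    rw [div_le_iff₀ hK0] at this
    linarith
  have hLJ : (J₀ : ℝ) + 1 ≤ C * L := by
    have : ((J₀ : ℝ) + 1) / C ≤ L := by linarith
    rw [div_le_iff₀ hC0] at this
    linarith
  have hLδ : 2 ≤ δ * L := by
    have : 2 / δ ≤ L := by linarith
    rw [div_le_iff₀ hδ0] at this
    linarith
  have hLC : C + 1 ≤ (δ / 2) ^ 3 * L := by
    have : (C + 1) / (δ / 2) ^ 3 ≤ L := by linarith
    rw [div_le_iff₀ (by positivity)] at this
    linarith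
  have hLL : L ≤ L ^ 2 := by
    rw [sq]
    exact le_mul_of_one_le_right hL0.le hL1
  have hL2 : 1 ≤ L ^ 2 := one_le_pow₀ hL1
  -- the size of I
  have hI3 : max I₀ 2 < I := by
    have h : (2 : ℝ) ^ (max I₀ 2 + 1) < 2 ^ (I + 1) := lt_of_le_of_lt e2 hI2
    have h' : (2 : ℕ) ^ (max I₀ 2 + 1) < 2 ^ (I + 1) := by exact_mod_cast h
    have := (Nat.pow_lt_pow_iff_right (by norm_num : 1 < 2)).1 h'
    omega
  have hI0 : I₀ ≤ I := (le_max_left _ _).trans hI3.le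
  have hI2' : 3 ≤ I := by have := le_max_right I₀ 2; omega
  have hlog2 : 1 / 2 < Real.log 2 := by have := Real.log_two_gt_d9; linarith
  have hlog2' : Real.log 2 < 1 := by have := Real.log_two_lt_d9; linarith
  have hlM : Real.log ((M : ℝ) ^ δ) = δ * L := by rw [Real.log_rpow hM0, hLd]
  have hIu : (I : ℝ) ≤ 2 * L := by
    have h := Real.log_le_log (by positivity) hI1
    rw [hlM, Real.log_pow] at h
    have h4 : δ * L ≤ 1 * L := mul_le_mul_of_nonneg_right hδ1 hL0.le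
    have h5 : (I : ℝ) * (1 / 2) ≤ I * Real.log 2 :=
      mul_le_mul_of_nonneg_left hlog2.le (Nat.cast_nonneg _)
    linarith
  have hIl : δ / 2 * L ≤ I := by
    have h := Real.log_le_log (by positivity) hI2.le
    rw [hlM, Real.log_pow] at h
    push_cast at h
    have h5 : ((I : ℝ) + 1) * Real.log 2 ≤ (I + 1) * 1 :=
      mul_le_mul_of_nonneg_left hlog2'.le (by positivity)
    linarith
  have hJ3 : C / 4 * (I : ℝ) ^ 2 ≤ J := by
    have h : (I : ℝ) ^ 2 ≤ (2 * L) ^ 2 := pow_le_pow_left₀ (Nat.cast_nonneg _) hIu 2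
    have h' := mul_le_mul_of_nonneg_left h (by positivity : 0 ≤ C / 4)
    linarith
  have hJ4 : J ≤ I ^ 3 := by
    have h : (δ / 2 * L) ^ 3 ≤ (I : ℝ) ^ 3 := pow_le_pow_left₀ (by positivity) hIl 3
    have h4 : (C + 1) * L ^ 2 ≤ (δ / 2) ^ 3 * L * L ^ 2 :=
      mul_le_mul_of_nonneg_right hLC (by positivity)
    have h5 : (δ / 2 * L) ^ 3 = (δ / 2) ^ 3 * L * L ^ 2 := by ring
    have h6 : (J : ℝ) ≤ (I : ℝ) ^ 3 := by linarith
    exact_mod_cast h6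
  have hτJ := HT I J r hI0 hJ3 hJ4 hr1 hr2
  obtain ⟨w, hw⟩ : ∃ w : ℕ, w = 2 ^ I - 1 := ⟨_, rfl⟩
  rw [← hw] at hτJ ⊢
  have h2I : 8 ≤ 2 ^ I := by
    calc 8 = 2 ^ 3 := by norm_num
      _ ≤ 2 ^ I := Nat.pow_le_pow_right (by norm_num) hI2'
  have hw3 : 3 ≤ w := by omega
  have hw' : w + 1 = 2 ^ I := by omega
  have hw'R : (w : ℝ) + 1 = 2 ^ I := by exact_mod_cast hw'
  have hwle : (w : ℝ) ≤ (M : ℝ) ^ δ := by linarith
  have hwge : 1 / 4 * (M : ℝ) ^ δ ≤ w := by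
    have h8 : (8 : ℝ) ≤ 2 ^ I := by exact_mod_cast h2I
    rw [pow_succ] at hI2
    linarith
  have hwM : (w : ℝ) ≤ M := by
    refine hwle.trans ?_
    calc (M : ℝ) ^ δ ≤ (M : ℝ) ^ (1 : ℝ) := Real.rpow_le_rpow_of_exponent_le hM1 hδ1
      _ = M := Real.rpow_one _
  have hw1 : (w : ℝ) ^ (4 * B₁ + 1) ≤ (M : ℝ) ^ (1 / 2 : ℝ) := by
    calc (w : ℝ) ^ (4 * B₁ + 1) ≤ ((M : ℝ) ^ δ) ^ (4 * B₁ + 1) :=
          pow_le_pow_left₀ (Nat.cast_nonneg _) hwle _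
      _ = (M : ℝ) ^ (δ * ((4 * B₁ + 1 : ℕ) : ℝ)) := by
          rw [← Real.rpow_natCast, ← Real.rpow_mul hM0.le]
      _ ≤ (M : ℝ) ^ (1 / 2 : ℝ) := Real.rpow_le_rpow_of_exponent_le hM1 hδB
  obtain ⟨S, hS⟩ : ∃ S : ℝ, S = (M : ℝ) ^ (1 / 2 : ℝ) := ⟨_, rfl⟩
  have hS0 : 0 < S := by rw [hS]; positivity
  have hSS : S * S = M := by
    rw [hS, ← Real.rpow_add (by linarith)]
    norm_num
  rw [← hS] at e1 hw1
  have hw3R : (3 : ℝ) ≤ w := by exact_mod_cast hw3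
  have hwlog : 0 < Real.log w := Real.log_pos (by linarith)
  have hlogle : Real.log w ≤ L := by
    rw [hLd]
    exact Real.log_le_log (by linarith) hwM
  obtain ⟨Λ, hΛd⟩ : ∃ Λ : ℝ, Λ = K * L ^ 2 := ⟨_, rfl⟩
  have hΛ1 : 1 ≤ Λ := by
    rw [hΛd]
    have : K * L ≤ K * L ^ 2 := mul_le_mul_of_nonneg_left hLL hK0.le
    linarith
  have hTV : ∀ j ∈ TT A p w P r J, 1 ≤ Λ * VV p w P a (r + P * j) := by
    intro j hj
    unfold TT at hj
    rw [mem_filter] at hj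
    obtain ⟨-, hj6, hjA⟩ := hj
    have h := HV p w P a (r + P * j) (by omega) hw3 hl (by omega)
    have h4 : c * Real.exp (-A) / Real.log w ^ 2 ≤ VV p w P a (r + P * j) := by
      refine le_trans ?_ h
      gcongr
    have h5 : c * Real.exp (-A) / L ^ 2 ≤ c * Real.exp (-A) / Real.log w ^ 2 := by
      gcongr
    have h6 : Λ * (c * Real.exp (-A) / L ^ 2) = 1 := by
      rw [hΛd, hK, Real.exp_neg]
      have := (Real.exp_pos A).ne'
      field_simp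
    calc (1 : ℝ) = Λ * (c * Real.exp (-A) / L ^ 2) := h6.symm
      _ ≤ Λ * VV p w P a (r + P * j) :=
        mul_le_mul_of_nonneg_left (h5.trans h4) (by linarith)
  have hJ5 : (J₀ : ℝ) + 1 ≤ J := by
    have h : C * L ≤ C * L ^ 2 := mul_le_mul_of_nonneg_left hLL hC0.le
    linarith
  have hJ6 : J₀ + 1 ≤ J := by exact_mod_cast hJ5
  -- the number z
  obtain ⟨z, hz1, hz2, hz3⟩ := exz B w hB
  have hL26 : 1 ≤ L ^ 26 := one_le_pow₀ hL1
  have hD : ∀ x : ℝ, x ≤ (G - 1) * L ^ 26 → x ≤ z := by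
    intro x hx
    have h1 : (⌈x⌉₊ : ℝ) ≤ G * L ^ 26 := by
      rcases le_or_gt x 0 with hx0 | hx0
      · rw [Nat.ceil_eq_zero.2 hx0, Nat.cast_zero]
        positivity
      · have := (Nat.ceil_lt_add_one hx0.le).le
        linarith
    have h2 : (⌈x⌉₊ : ℝ) ^ B ≤ w := by
      calc (⌈x⌉₊ : ℝ) ^ B ≤ (G * L ^ 26) ^ B := pow_le_pow_left₀ (Nat.cast_nonneg _) h1 B
        _ = G ^ B * L ^ (26 * B) := by rw [mul_pow, ← pow_mul]
        _ ≤ 1 / 4 * (M : ℝ) ^ δ := e4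
        _ ≤ w := hwge
    have h3 : ⌈x⌉₊ ^ B ≤ w := by exact_mod_cast h2
    have h4 : (⌈x⌉₊ : ℝ) ≤ z := by exact_mod_cast hz3 _ h3
    exact (Nat.le_ceil x).trans h4
  have hGL : G - 1 ≤ (G - 1) * L ^ 26 := le_mul_of_one_le_right (by linarith) hL26
  have hpz : p ≤ z := by
    have : (p : ℝ) ≤ z := hD _ (hGp.trans hGL)
    exact_mod_cast this
  have hJz : 400 * (P * (J + 1)) ^ 13 ≤ z := by
    have h6 : 400 * ((P : ℝ) * ((J : ℝ) + 1)) ^ 13 ≤ z := hD _ (hGJ J L hL1 hJ2)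
    exact_mod_cast h6
  have hBz : (B : ℝ) ^ 12 ≤ η * z := by
    have h1 : (B : ℝ) ^ 12 / η ≤ z := hD _ (hGB.trans hGL)
    rw [div_le_iff₀ hη0, mul_comm] at h1
    exact h1
  obtain ⟨F, hF⟩ := HW w (by omega) (QQ z w) (fun l hl => by
    unfold QQ at hl
    rw [mem_filter, mem_Ioc] at hl
    exact ⟨hl.2, hl.1.2⟩)
  have hfin := H A Λ J a r z w M F (by omega) (by omega) hr1 hr2 hpz hJz hBz hz1 hz2 hF hΛ1 hTV hτJ
  refine hfin.trans ?_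
  have f1 : C' * η * M ≤ ε / 4 * M := mul_le_mul_of_nonneg_right hηε hM0.le
  have hJ0 : (0 : ℝ) < J := by
    have : (0 : ℝ) ≤ J₀ := Nat.cast_nonneg _
    linarith
  have f2 : C' * (B : ℝ) ^ 15 * (M * Λ / J) ≤ ε / 4 * M := by
    have h1 : C' * (B : ℝ) ^ 15 * K * L ^ 2 * 4 = ε * (C * L ^ 2) := by
      rw [hCd]
      field_simp
    have h2 : C' * (B : ℝ) ^ 15 * Λ ≤ ε / 4 * J := by
      rw [hΛd]
      have := mul_le_mul_of_nonneg_left hJ1 hε.le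
      linarith
    have h3 : C' * (B : ℝ) ^ 15 * (M * Λ / J) = C' * (B : ℝ) ^ 15 * Λ * M / J := by ring
    rw [h3, div_le_iff₀ hJ0]
    have := mul_le_mul_of_nonneg_right h2 hM0.le
    linarith
  have f3 : 12 * (Λ ^ 2 * (w : ℝ) ^ (4 * B₁ + 1)) ≤ ε / 4 * M := by
    have h1 : 12 * (Λ ^ 2 * (w : ℝ) ^ (4 * B₁ + 1)) ≤ 12 * (Λ ^ 2 * S) := by
      gcongr
    have h2 : 12 * (Λ ^ 2 * S) = (48 * K ^ 2 * L ^ 4) * S / 4 := by
      rw [hΛd]
      ring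
    have h3 : 48 * K ^ 2 * L ^ 4 * S ≤ ε * S * S := mul_le_mul_of_nonneg_right e1 hS0.le
    have h4 : ε * S * S = ε * M := by rw [mul_assoc, hSS]
    linarith
  have f4 : 0 ≤ ε * M := by positivity
  linarith

end Pool.Agent.Helper88.LPA
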